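import Pool.Agent.H390R2.Asym
import Pool.Agent.Helper923.PNT

open Finset Filter Topology

namespace Pool.Agent.W16.GT

open Pool.Agent.H390R2

/-- prime number theorem along the natural numbers -/
lemma pnt_nat : Tendsto (fun m : ℕ => (Nat.primeCounting m : ℝ) * Real.log m / m) atTop (𝓝 1) := by
  have h := Pool.Agent.Helper923.PNT.pi_tendsto.comp tendsto_natCast_atTop_atTop
  refine h.congr fun m => ?_
  simp [Function.comp]

lemma II_succ {m : ℕ} (hm : 1 ≤ m) :
    II m + (Nat.primeCounting m : ℝ) * (Real.log (m + 1 : ℕ) - Real.log m) ≤ II (m + 1) := by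
  have hm0 : (0 : ℝ) < m := by exact_mod_cast hm
  have h1 : ∑ p ∈ Nat.primesLE m, Real.log (((m + 1 : ℕ) : ℝ) / p) ≤ II (m + 1) := by
    unfold II
    refine Finset.sum_le_sum_of_subset_of_nonneg ?_ ?_
    · intro p hp
      rw [Nat.mem_primesLE] at hp ⊢
      exact ⟨hp.1.trans (Nat.le_succ m), hp.2⟩
    · intro p hp _
      have h2 : (0 : ℝ) < p := by exact_mod_cast (Nat.prime_of_mem_primesLE hp).pos
      apply Real.log_nonneg
      rw [le_div_iff₀ h2, one_mul]
      exact_mod_cast Nat.le_of_mem_primesLE hp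
  refine le_trans (le_of_eq ?_) h1
  unfold II
  rw [← Nat.primesLE_card_eq_primeCounting, ← nsmul_eq_mul, ← Finset.sum_const,
    ← Finset.sum_add_distrib]
  refine Finset.sum_congr rfl fun p hp => ?_
  have h2 : (0 : ℝ) < p := by exact_mod_cast (Nat.prime_of_mem_primesLE hp).pos
  have h3 : (0 : ℝ) < ((m + 1 : ℕ) : ℝ) := by positivity
  rw [Real.log_div hm0.ne' h2.ne', Real.log_div h3.ne' h2.ne']
  ring

lemma II_nonneg' (m : ℕ) : 0 ≤ II m := by
  unfold II
  refine Finset.sum_nonneg fun p hp => ?_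
  have h1 : (0 : ℝ) < p := by exact_mod_cast (Nat.prime_of_mem_primesLE hp).pos
  apply Real.log_nonneg
  rw [le_div_iff₀ h1, one_mul]
  exact_mod_cast Nat.le_of_mem_primesLE hp

lemma II_lower {η : ℝ} (hη : 0 < η) (hη1 : η ≤ 1) :
    ∀ᶠ m : ℕ in atTop, (1 - η) * m / Real.log m ≤ II m := by
  have h1 : ∀ᶠ m : ℕ in atTop, (1 - η / 3) < (Nat.primeCounting m : ℝ) * Real.log m / m :=
    pnt_nat.eventually (lt_mem_nhds (by linarith))
  obtain ⟨b, hb⟩ := exists_nat_ge (3 / η)
  obtain ⟨k1, hk1⟩ := eventually_atTop.mp (h1.and (eventually_ge_atTop (max b 3)))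
  have hk1' := (hk1 k1 le_rfl).2
  have hk3 : 3 ≤ k1 := (le_max_right _ _).trans hk1'
  obtain ⟨b2, hb2⟩ := exists_nat_ge (3 * k1 / η)
  filter_upwards [eventually_ge_atTop (max b2 k1)] with M hM
  have hMk : k1 ≤ M := (le_max_right _ _).trans hM
  have hM0 : (0 : ℝ) < M := by
    have : 0 < M := by omega
    exact_mod_cast this
  have hL0 : 0 < Real.log M := Real.log_pos (by
    have : 1 < M := by omega
    exact_mod_cast this)
  have key : ∀ m : ℕ, k1 ≤ m → m ≤ M →
      (1 - η / 3) ^ 2 * ((m : ℝ) - k1) / Real.log M ≤ II m := by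
    intro m hm
    induction m, hm using Nat.le_induction with
    | base => intro _; simpa using II_nonneg' k1
    | succ m hm ih =>
      intro hmM
      have ih' := ih (by omega)
      have hm1 : 1 ≤ m := by omega
      have hm0 : (0 : ℝ) < m := by exact_mod_cast hm1
      have hlm : 0 < Real.log m := Real.log_pos (by
        have : 1 < m := by omega
        exact_mod_cast this)
      have h2 := II_succ hm1
      obtain ⟨h3, h4⟩ := hk1 m hm
      have h5 : Real.log m ≤ Real.log M := Real.log_le_log hm0 (by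
        exact_mod_cast (by omega : m ≤ M))
      have h6 : (1 : ℝ) / (m + 1) ≤ Real.log (m + 1 : ℕ) - Real.log m := by
        have h7 := Real.one_sub_inv_le_log_of_pos (x := ((m + 1 : ℕ) : ℝ) / m) (by positivity)
        rw [Real.log_div (by positivity) hm0.ne'] at h7
        refine le_trans (le_of_eq ?_) h7
        push_cast
        field_simp
        ring
      have h8 : (3 / η : ℝ) ≤ m := hb.trans (by exact_mod_cast ((le_max_left _ _).trans h4))
      have h9 : 1 - η / 3 ≤ (m : ℝ) * (1 / (m + 1)) := by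
        rw [mul_one_div, le_div_iff₀ (by positivity)]
        rw [div_le_iff₀ hη] at h8
        nlinarith
      have h10 : (1 - η / 3) * m / Real.log M ≤ Nat.primeCounting m := by
        rw [lt_div_iff₀ hm0] at h3
        rw [div_le_iff₀ hL0]
        refine h3.le.trans ?_
        gcongr
      have h11 : (1 - η / 3) ^ 2 / Real.log M ≤
          (Nat.primeCounting m : ℝ) * (Real.log (m + 1 : ℕ) - Real.log m) := by
        calc (1 - η / 3) ^ 2 / Real.log M = (1 - η / 3) / Real.log M * (1 - η / 3) := by ring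
          _ ≤ (1 - η / 3) / Real.log M * (m * (1 / (m + 1))) := by
              have : 0 ≤ 1 - η / 3 := by linarith
              gcongr
          _ = ((1 - η / 3) * m / Real.log M) * (1 / (m + 1)) := by ring
          _ ≤ (Nat.primeCounting m : ℝ) * (Real.log (m + 1 : ℕ) - Real.log m) := by
              gcongr
      calc (1 - η / 3) ^ 2 * (((m + 1 : ℕ) : ℝ) - k1) / Real.log M
          = (1 - η / 3) ^ 2 * ((m : ℝ) - k1) / Real.log M + (1 - η / 3) ^ 2 / Real.log M := by
            push_cast; ring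
        _ ≤ II m + (Nat.primeCounting m : ℝ) * (Real.log (m + 1 : ℕ) - Real.log m) :=
            add_le_add ih' h11
        _ ≤ II (m + 1) := h2
  refine le_trans ?_ (key M hMk le_rfl)
  refine div_le_div_of_nonneg_right ?_ hL0.le
  have h12 : (3 * k1 / η : ℝ) ≤ M := hb2.trans (by exact_mod_cast ((le_max_left _ _).trans hM))
  rw [div_le_iff₀ hη] at h12
  have h13 : (1 - η / 3) * M ≤ (M : ℝ) - k1 := by linarith
  calc (1 - η) * M ≤ (1 - η / 3) ^ 3 * M := by
        gcongr
        nlinarith [sq_nonneg η, mul_pos hη hη, mul_pos (mul_pos hη hη) hη]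
    _ = (1 - η / 3) ^ 2 * ((1 - η / 3) * M) := by ring
    _ ≤ (1 - η / 3) ^ 2 * (M - k1) := by gcongr

/-- the bound for the height of the triples -/
lemma height_bound {ε : ℝ} (hε : 0 < ε) (hε1 : ε ≤ 1 / 4) :
    ∀ᶠ m : ℕ in atTop,
      (Nat.primeCounting m * m * Real.log m * Real.exp (-(II m / Nat.primeCounting m))) ≤
      (1 + ε) * Real.exp (-(1 - 2 * ε)) * (m : ℝ) ^ 2 := by
  have h1 : ∀ᶠ m : ℕ in atTop, (Nat.primeCounting m : ℝ) * Real.log m / m < 1 + ε :=
    pnt_nat.eventually (gt_mem_nhds (by linarith))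
  filter_upwards [h1, II_lower hε (by linarith), eventually_ge_atTop 3] with m h1 h2 h3
  have hm0 : (0 : ℝ) < m := by
    have : 0 < m := by omega
    exact_mod_cast this
  have hL : 0 < Real.log m := Real.log_pos (by
    have : 1 < m := by omega
    exact_mod_cast this)
  have hn0 : (0 : ℝ) < Nat.primeCounting m := by
    have : 0 < Nat.primeCounting m := by
      have h4 : Nat.primeCounting 2 ≤ Nat.primeCounting m := Nat.monotone_primeCounting (by omega)
      have h5 : Nat.primeCounting 2 = 1 := by decide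
      omega
    exact_mod_cast this
  rw [div_lt_iff₀ hm0] at h1
  have h6 : 1 - 2 * ε ≤ II m / Nat.primeCounting m := by
    rw [le_div_iff₀ hn0]
    refine le_trans ?_ h2
    rw [le_div_iff₀ hL]
    calc (1 - 2 * ε) * Nat.primeCounting m * Real.log m
        = (1 - 2 * ε) * (Nat.primeCounting m * Real.log m) := by ring
      _ ≤ (1 - 2 * ε) * ((1 + ε) * m) := by
          have : 0 ≤ 1 - 2 * ε := by linarith
          gcongr
      _ ≤ (1 - ε) * m := by
          have : 0 ≤ ε ^ 2 * m := by positivity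
          linarith
  have h7 : Real.exp (-(II m / Nat.primeCounting m)) ≤ Real.exp (-(1 - 2 * ε)) :=
    Real.exp_le_exp.mpr (by linarith)
  calc (Nat.primeCounting m * m * Real.log m * Real.exp (-(II m / Nat.primeCounting m)))
      = (Nat.primeCounting m * Real.log m) * (m * Real.exp (-(II m / Nat.primeCounting m))) := by
        ring
    _ ≤ ((1 + ε) * m) * (m * Real.exp (-(1 - 2 * ε))) := by gcongr
    _ = _ := by ring

/-- the cut-off prime bound for `Y = log X` -/
noncomputable def mm (a Y : ℝ) : ℕ := ⌊a * √Y⌋₊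

lemma mm_div {a : ℝ} (ha : 0 < a) :
    Tendsto (fun Y : ℝ => (mm a Y : ℝ) / √Y) atTop (𝓝 a) :=
  (tendsto_nat_floor_mul_div_atTop ha.le).comp Real.tendsto_sqrt_atTop

lemma mm_atTop {a : ℝ} (ha : 0 < a) : Tendsto (fun Y : ℝ => mm a Y) atTop atTop := by
  unfold mm
  exact tendsto_nat_floor_atTop.comp (Real.tendsto_sqrt_atTop.const_mul_atTop ha)

lemma log_mm {a : ℝ} (ha : 0 < a) :
    Tendsto (fun Y : ℝ => Real.log (mm a Y) / Real.log Y) atTop (𝓝 (1 / 2)) := by
  have h1 : Tendsto (fun Y : ℝ => Real.log ((mm a Y : ℝ) / √Y)) atTop (𝓝 (Real.log a)) :=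
    (mm_div ha).log ha.ne'
  have h2 : Tendsto (fun Y : ℝ => Real.log ((mm a Y : ℝ) / √Y) / Real.log Y) atTop (𝓝 0) :=
    h1.div_atTop Real.tendsto_log_atTop
  have h3 := h2.add_const (1 / 2)
  rw [zero_add] at h3
  refine h3.congr' ?_
  filter_upwards [(mm_atTop ha).eventually (eventually_ge_atTop 1), eventually_gt_atTop 1]
    with Y h4 h5
  have h6 : (0 : ℝ) < mm a Y := by exact_mod_cast h4
  have h7 : 0 < √Y := Real.sqrt_pos.mpr (by linarith)
  have h8 : 0 < Real.log Y := Real.log_pos h5
  rw [Real.log_div h6.ne' h7.ne', Real.log_sqrt (by linarith)]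
  field_simp
  ring

/-- the number of primes available -/
lemma count_limit {a : ℝ} (ha : 0 < a) :
    Tendsto (fun Y : ℝ => (Nat.primeCounting (mm a Y) : ℝ) / (√Y / Real.log Y)) atTop
      (𝓝 (2 * a)) := by
  have h1 := pnt_nat.comp (mm_atTop ha)
  have h2 := (h1.mul (mm_div ha)).div (log_mm ha) (by norm_num)
  have h3 : (1 : ℝ) * a / (1 / 2) = 2 * a := by ring
  rw [h3] at h2
  refine h2.congr' ?_
  filter_upwards [(mm_atTop ha).eventually (eventually_ge_atTop 2), eventually_gt_atTop 1]
    with Y h4 h5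
  have h6 : (1 : ℝ) < mm a Y := by exact_mod_cast h4
  have h6' : (0 : ℝ) < mm a Y := by linarith
  have h7 : 0 < √Y := Real.sqrt_pos.mpr (by linarith)
  have h8 : 0 < Real.log Y := Real.log_pos h5
  have h9 : 0 < Real.log (mm a Y) := Real.log_pos h6
  simp only [Function.comp, Pi.div_apply]
  field_simp

end Pool.Agent.W16.GT
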