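import Pool.Agent.W16.GT.Cut
import Pool.Agent.W16.GT.Asy

open Finset Filter Topology

namespace Pool.Agent.W16.GT

open Pool.Agent.H390R2

lemma choose_a {T : ℝ} (hT0 : 0 < T) (hT : T < √(8 / 9) * Real.exp (59 / 30)) :
    ∃ a ε : ℝ, 0 < a ∧ T / 4 < a ∧ 0 < ε ∧ ε ≤ 1 / 4 ∧
      (1 + 2 * ε) * (18 * Real.exp (3 * ε) * Real.exp (-(44 / 15)) *
        ((1 + ε) * Real.exp (-(1 - 2 * ε)))) * a ^ 2 ≤ 1 := by
  set C : ℝ := 18 * Real.exp (-(59 / 15)) with hC
  have hC0 : 0 < C := by positivity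
  have h1 : T ^ 2 * C < 16 := by
    have h2 : T ^ 2 < (8 / 9) * Real.exp (59 / 15) := by
      have h2 : T ^ 2 < (√(8 / 9) * Real.exp (59 / 30)) ^ 2 :=
        pow_lt_pow_left₀ hT hT0.le two_ne_zero
      rw [mul_pow, Real.sq_sqrt (by norm_num), ← Real.exp_nat_mul] at h2
      have : ((2 : ℕ) : ℝ) * (59 / 30) = 59 / 15 := by norm_num
      rwa [this] at h2
    calc T ^ 2 * C < (8 / 9) * Real.exp (59 / 15) * C := by gcongr
      _ = 16 * (Real.exp (59 / 15) * Real.exp (-(59 / 15))) := by rw [hC]; ring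
      _ = 16 := by rw [← Real.exp_add]; norm_num
  have hc0 : Continuous (fun a : ℝ => a ^ 2 * C) := by fun_prop
  have h3 : ∀ᶠ a : ℝ in 𝓝 (T / 4), a ^ 2 * C < 1 := by
    have := (hc0.tendsto (T / 4)).eventually_lt (tendsto_const_nhds (x := (1 : ℝ)))
      (by nlinarith)
    exact this
  obtain ⟨δ, hδ0, hδ⟩ := Metric.eventually_nhds_iff.mp h3
  set a : ℝ := T / 4 + δ / 2 with ha
  have ha0 : 0 < a := by positivity
  have haC : a ^ 2 * C < 1 := by
    apply hδ
    rw [Real.dist_eq, ha, add_sub_cancel_left, abs_of_pos (by positivity)]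
    linarith
  have hc1 : Continuous (fun ε : ℝ => (1 + 2 * ε) * (18 * Real.exp (3 * ε) *
      Real.exp (-(44 / 15)) * ((1 + ε) * Real.exp (-(1 - 2 * ε)))) * a ^ 2) := by fun_prop
  have h4 : ∀ᶠ ε : ℝ in 𝓝 0, (1 + 2 * ε) * (18 * Real.exp (3 * ε) *
      Real.exp (-(44 / 15)) * ((1 + ε) * Real.exp (-(1 - 2 * ε)))) * a ^ 2 < 1 := by
    refine (hc1.tendsto 0).eventually_lt (tendsto_const_nhds (x := (1 : ℝ))) ?_
    have h5 : Real.exp (-(44 / 15)) * Real.exp (-1) = Real.exp (-(59 / 15) : ℝ) := by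
      rw [← Real.exp_add]; norm_num
    have h6 : (1 + 2 * (0 : ℝ)) * (18 * Real.exp (3 * 0) *
      Real.exp (-(44 / 15)) * ((1 + 0) * Real.exp (-(1 - 2 * 0)))) * a ^ 2 =
      a ^ 2 * (18 * (Real.exp (-(44 / 15)) * Real.exp (-1))) := by
      simp only [mul_zero, Real.exp_zero, sub_zero]
      ring
    rw [h6, h5]
    exact haC
  obtain ⟨δ', hδ'0, hδ'⟩ := Metric.eventually_nhds_iff.mp h4
  refine ⟨a, min (δ' / 2) (1 / 4), ha0, by rw [ha]; linarith, by positivity, min_le_right _ _,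
    (hδ' ?_).le⟩
  rw [Real.dist_eq, sub_zero, abs_of_pos (by positivity)]
  exact lt_of_le_of_lt (min_le_left _ _) (by linarith)

lemma rho_atTop (c : ℝ) : ∀ᶠ Y : ℝ in atTop, c * Real.log Y ≤ √Y / Real.log Y := by
  have h1 : (fun x : ℝ => Real.log x ^ (2 : ℕ)) =o[atTop] fun x : ℝ => x ^ (1 / 2 : ℝ) := by
    have := isLittleO_log_rpow_rpow_atTop (s := 1 / 2) (2 : ℝ) (by norm_num)
    refine this.congr' ?_ (Eventually.of_forall fun _ => rfl)
    filter_upwards with x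
    exact Real.rpow_natCast _ 2
  have h2 := h1.bound (c := 1 / (|c| + 1)) (by positivity)
  filter_upwards [h2, eventually_gt_atTop 1] with Y hY hY1
  have hl : 0 < Real.log Y := Real.log_pos hY1
  rw [← Real.sqrt_eq_rpow, Real.norm_eq_abs, Real.norm_eq_abs,
    abs_of_nonneg (Real.sqrt_nonneg Y), abs_of_nonneg (by positivity)] at hY
  rw [le_div_iff₀ hl]
  have h3 : (|c| + 1) * Real.log Y ^ 2 ≤ √Y := by
    calc (|c| + 1) * Real.log Y ^ 2 ≤ (|c| + 1) * (1 / (|c| + 1) * √Y) := by gcongr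
      _ = √Y := by field_simp
  have h4 := le_abs_self c
  have h5 : 0 ≤ Real.log Y ^ 2 := by positivity
  nlinarith

theorem many {K K' : ℝ} (hK : 0 < K) (hK' : 0 < K')
    (h : K + K' < √(8 / 9) * Real.exp (59 / 30)) :
    ∀ᶠ Y : ℝ in atTop, ∃ T : Finset (ℕ × ℕ × ℕ),
      Real.exp (K' * √Y / Real.log Y) ≤ T.card ∧
      ∀ t ∈ T, IsABCTriple t.1 t.2.1 t.2.2 ∧ t.1 < t.2.1 ∧ Real.log t.2.2 ≤ Y ∧
        K * √Y / Real.log Y < Real.log t.2.2 - Real.log (rad (t.1 * t.2.1 * t.2.2)) := by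
  have hT0 : 0 < K + K' := by positivity
  obtain ⟨a, ε, ha0, haT, hε, hε1, hopt⟩ := choose_a hT0 h
  set T : ℝ := K + K' with hT
  set g : ℝ := 2 * K / T with hg
  set h' : ℝ := 2 * K' / T with hh
  have hg0 : 0 < g := by positivity
  have hh0 : 0 < h' := by positivity
  have hgh : g + h' = 2 := by
    rw [hg, hh, ← add_div, ← mul_add, ← hT]; field_simp
  set q : ℝ := (T / 2 + 2 * a) / 2 with hq
  have hq1 : T / 2 < q := by rw [hq]; linarith
  have hq2 : q < 2 * a := by rw [hq]; linarith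
  set r : ℝ := 2 * q / T - 1 with hr
  have hr0 : 0 < r := by
    have : 1 < 2 * q / T := by rw [lt_div_iff₀ hT0]; linarith
    linarith
  have e1 := (mm_atTop ha0).eventually (cut_triples hε hε1 hg0 hh0 hgh)
  have e2 := (mm_atTop ha0).eventually (height_bound hε hε1)
  have e3 := (count_limit ha0).eventually (lt_mem_nhds hq2)
  have e4 := (log_mm ha0).eventually (gt_mem_nhds (show (1 / 2 : ℝ) < 1 by norm_num))
  have e5 := rho_atTop (10 / (K * r))
  have e6 := rho_atTop (1 / (K' * r))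
  filter_upwards [e1, e2, e3, e4, e5, e6, eventually_ge_atTop (Real.exp 1)] with
    Y h1 h2 h3 h4 h5 h6 h7
  have hY0 : 0 < Y := lt_of_lt_of_le (Real.exp_pos 1) h7
  have hlY : 1 ≤ Real.log Y := by rw [Real.le_log_iff_exp_le hY0]; exact h7
  have hlY0 : 0 < Real.log Y := by linarith
  have hsY : 0 < √Y := Real.sqrt_pos.mpr hY0
  set ρ : ℝ := √Y / Real.log Y with hρ
  have hρ0 : 0 < ρ := by positivity
  set m := mm a Y with hm
  rw [lt_div_iff₀ hρ0] at h3
  rw [div_lt_iff₀ hlY0, one_mul] at h4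
  have hm2 : (m : ℝ) ^ 2 ≤ a ^ 2 * Y := by
    have h8 : (m : ℝ) ≤ a * √Y := Nat.floor_le (by positivity)
    calc (m : ℝ) ^ 2 ≤ (a * √Y) ^ 2 := by gcongr
      _ = a ^ 2 * Y := by rw [mul_pow, Real.sq_sqrt hY0.le]
  obtain ⟨S, hS1, hS2⟩ := h1
  refine ⟨S, ?_, ?_⟩
  · have h9 : K' * √Y / Real.log Y + Real.log 2 ≤ h' * Nat.primeCounting m := by
      have h10 : h' * (q * ρ) ≤ h' * Nat.primeCounting m := by gcongr
      have h11 : h' * (q * ρ) = K' * ρ + K' * r * ρ := by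
        rw [hh, hr]; field_simp; ring
      have h12 : 1 ≤ K' * r * ρ := by
        have h13 : K' * r * (1 / (K' * r) * Real.log Y) ≤ K' * r * ρ := by gcongr
        have h14 : K' * r * (1 / (K' * r) * Real.log Y) = Real.log Y := by field_simp
        linarith
      have h15 : K' * √Y / Real.log Y = K' * ρ := by rw [hρ]; ring
      rw [h15]
      linarith [Real.log_two_lt_d9]
    have h16 := Real.exp_le_exp.mpr h9
    rw [Real.exp_add, Real.exp_log two_pos] at h16
    linarith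
  · intro t ht
    obtain ⟨habc, hab, hc, hrad⟩ := hS2 t ht
    refine ⟨habc, hab, ?_, ?_⟩
    · refine hc.trans ?_
      calc (1 + 2 * ε) * (18 * Real.exp (3 * ε) * Real.exp (-(44 / 15)) *
          (Nat.primeCounting m * m * Real.log m *
            Real.exp (-(II m / Nat.primeCounting m))))
          ≤ (1 + 2 * ε) * (18 * Real.exp (3 * ε) * Real.exp (-(44 / 15)) *
          ((1 + ε) * Real.exp (-(1 - 2 * ε)) * (m : ℝ) ^ 2)) := by gcongr
        _ ≤ (1 + 2 * ε) * (18 * Real.exp (3 * ε) * Real.exp (-(44 / 15)) *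
          ((1 + ε) * Real.exp (-(1 - 2 * ε)) * (a ^ 2 * Y))) := by gcongr
        _ = ((1 + 2 * ε) * (18 * Real.exp (3 * ε) * Real.exp (-(44 / 15)) *
          ((1 + ε) * Real.exp (-(1 - 2 * ε)))) * a ^ 2) * Y := by ring
        _ ≤ 1 * Y := by gcongr
        _ = Y := one_mul Y
    · refine lt_of_lt_of_le ?_ hrad
      have h10 : g * (q * ρ) ≤ g * Nat.primeCounting m := by gcongr
      have h11 : g * (q * ρ) = K * ρ + K * r * ρ := by
        rw [hg, hr]; field_simp; ring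
      have h12 : 10 * Real.log Y ≤ K * r * ρ := by
        have h13 : K * r * (10 / (K * r) * Real.log Y) ≤ K * r * ρ := by gcongr
        have h14 : K * r * (10 / (K * r) * Real.log Y) = 10 * Real.log Y := by field_simp
        linarith
      have h15 : K * √Y / Real.log Y = K * ρ := by rw [hρ]; ring
      rw [h15]
      linarith

end Pool.Agent.W16.GT
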