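import Mathlib

open Finset

namespace Pool.Agent.W16.GT

/-- If every functional modulo `N * M` has a nonzero integer vector with property `P` in its
kernel, then every functional modulo `N` has at least `M` of them. -/
theorem many_vectors {ι : Type} [Fintype ι] [DecidableEq ι] {N M : ℕ} (hN : 0 < N)
    (hM : M.Prime) (W : ι → ℤ) (P : (ι → ℤ) → Prop)
    (hP : ∀ e, P e → ∀ i, |e i| < M)
    (hlat : ∀ W' : ι → ℤ, ∃ e : ι → ℤ, e ≠ 0 ∧ ((N * M : ℕ) : ℤ) ∣ ∑ i, W' i * e i ∧ P e) :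
    ∃ V : Finset (ι → ℤ), M ≤ V.card ∧ ∀ e ∈ V, e ≠ 0 ∧ (N : ℤ) ∣ ∑ i, W i * e i ∧ P e := by
  classical
  have : Fact M.Prime := ⟨hM⟩
  have : NeZero M := ⟨hM.ne_zero⟩
  choose E hE0 hEd hEP using fun ψ : ι → ZMod M =>
    hlat (fun i => W i + N * ((ψ i).val : ℤ))
  have hsplit : ∀ ψ : ι → ZMod M, ∑ i, (W i + N * ((ψ i).val : ℤ)) * E ψ i =
      ∑ i, W i * E ψ i + N * ∑ i, ((ψ i).val : ℤ) * E ψ i := by
    intro ψ
    rw [Finset.mul_sum, ← Finset.sum_add_distrib]
    exact Finset.sum_congr rfl fun i _ => by ring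
  have hNd : ∀ ψ : ι → ZMod M, (N : ℤ) ∣ ∑ i, W i * E ψ i := by
    intro ψ
    have h1 : (N : ℤ) ∣ ∑ i, (W i + N * ((ψ i).val : ℤ)) * E ψ i := by
      refine dvd_trans ?_ (hEd ψ)
      push_cast
      exact Dvd.intro _ rfl
    rw [hsplit] at h1
    exact (dvd_add_left (Dvd.intro _ rfl)).mp h1
  refine ⟨Finset.univ.image E, ?_, ?_⟩
  · have hfib : ∀ e ∈ Finset.univ.image E,
        (Finset.univ.filter fun ψ => E ψ = e).card ≤ M ^ (Fintype.card ι - 1) := by
      intro e he
      obtain ⟨ψ0, _, hψ0⟩ := Finset.mem_image.mp he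
      have he0 : e ≠ 0 := hψ0 ▸ hE0 ψ0
      have heP : P e := hψ0 ▸ hEP ψ0
      obtain ⟨i0, hi0⟩ := Function.ne_iff.mp he0
      have hi0' : ((e i0 : ℤ) : ZMod M) ≠ 0 := by
        intro h
        rw [ZMod.intCast_zmod_eq_zero_iff_dvd] at h
        exact hi0 (Int.eq_zero_of_abs_lt_dvd h (hP e heP i0))
      have hcard : Fintype.card ({i // i ≠ i0} → ZMod M) = M ^ (Fintype.card ι - 1) := by
        rw [Fintype.card_fun, ZMod.card]
        congr 1
        simp
      rw [← hcard, ← Finset.card_univ]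
      refine Finset.card_le_card_of_injOn (fun ψ i => ψ i.1) (fun _ _ => Finset.mem_univ _) ?_
      intro ψ hψ ψ' hψ' heq
      simp only [Finset.coe_filter, Finset.mem_univ, true_and, Set.mem_ofPred_eq] at hψ hψ'
      obtain ⟨k, hk⟩ : (N : ℤ) ∣ ∑ i, W i * e i := by
        rw [← hψ]; exact hNd ψ
      have key : ∀ χ : ι → ZMod M, E χ = e → ((k : ℤ) : ZMod M) + ∑ i, χ i * (e i : ZMod M) = 0 := by
        intro χ hχ
        have h1 := hEd χ
        rw [hsplit, hχ, hk, ← mul_add] at h1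
        push_cast at h1
        have h2 : (M : ℤ) ∣ k + ∑ i, ((χ i).val : ℤ) * e i := by
          refine (mul_dvd_mul_iff_left ?_).mp h1
          exact_mod_cast hN.ne'
        rw [← ZMod.intCast_zmod_eq_zero_iff_dvd] at h2
        push_cast at h2
        simpa using h2
      have h1 := key ψ hψ
      have h2 := key ψ' hψ'
      have h3 : ∑ i, (ψ i - ψ' i) * (e i : ZMod M) = 0 := by
        simp only [sub_mul]
        rw [Finset.sum_sub_distrib]
        linear_combination h1 - h2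
      have h4 : ∀ i, i ≠ i0 → ψ i = ψ' i := fun i hi => congrFun heq ⟨i, hi⟩
      rw [Finset.sum_eq_single i0 (fun i _ hi => by rw [h4 i hi]; ring) (by simp)] at h3
      have h5 : ψ i0 = ψ' i0 := by
        rcases mul_eq_zero.mp h3 with h | h
        · exact sub_eq_zero.mp h
        · exact absurd h hi0'
      funext i
      by_cases hi : i = i0
      · rw [hi]; exact h5
      · exact h4 i hi
    have h1 := Finset.card_le_mul_card_image (s := (Finset.univ : Finset (ι → ZMod M))) (f := E)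
      (M ^ (Fintype.card ι - 1)) hfib
    have hι : 0 < Fintype.card ι := by
      obtain ⟨i0, _⟩ := Function.ne_iff.mp (hE0 0)
      exact Fintype.card_pos_iff.mpr ⟨i0⟩
    rw [Finset.card_univ, Fintype.card_fun, ZMod.card] at h1
    have h2 : M ^ Fintype.card ι = M ^ (Fintype.card ι - 1) * M := by
      rw [← pow_succ]; congr 1; omega
    rw [h2] at h1
    exact Nat.le_of_mul_le_mul_left h1 (pow_pos hM.pos _)
  · intro e he
    obtain ⟨ψ, _, hψ⟩ := Finset.mem_image.mp he
    subst hψ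
    exact ⟨hE0 ψ, hNd ψ, hEP ψ⟩

end Pool.Agent.W16.GT
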