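import Pool.Agent.H390R2.Triple

open Finset

namespace Pool.Agent.W16.GT

open Pool.Agent.H390R2

variable {m : ℕ} (e : {p // p ∈ Nat.primesLE m} → ℤ)

/-- the larger number attached to an exponent vector -/
def big : ℕ := max (num e) (num (-e))

/-- the smaller number attached to an exponent vector -/
def small : ℕ := min (num e) (num (-e))

/-- the triple attached to an exponent vector -/
def tri : ℕ × ℕ × ℕ := (big e - small e, small e, big e)

lemma fac_num (p : {p // p ∈ Nat.primesLE m}) : (num e).factorization p = (e p).toNat := by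
  unfold num
  rw [Nat.factorization_prod (fun q _ =>
    (Nat.pow_pos (Nat.prime_of_mem_primesLE q.2).pos).ne'), Finsupp.finset_sum_apply,
    Finset.sum_eq_single p]
  · rw [Nat.Prime.factorization_pow (Nat.prime_of_mem_primesLE p.2)]
    simp
  · intro q _ hq
    rw [Nat.Prime.factorization_pow (Nat.prime_of_mem_primesLE q.2)]
    rw [Finsupp.single_apply, if_neg]
    intro h
    exact hq (Subtype.ext h)
  · simp

lemma num_inj {e e' : {p // p ∈ Nat.primesLE m} → ℤ} (h1 : num e = num e')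
    (h2 : num (-e) = num (-e')) : e = e' := by
  funext p
  have a1 := fac_num e p
  have a2 := fac_num e' p
  have b1 := fac_num (-e) p
  have b2 := fac_num (-e') p
  rw [h1] at a1
  rw [h2] at b1
  simp only [Pi.neg_apply] at b1 b2
  omega

lemma tri_fiber {e e' : {p // p ∈ Nat.primesLE m} → ℤ} (h : tri e' = tri e) :
    e' = e ∨ e' = -e := by
  unfold tri big small at h
  simp only [Prod.mk.injEq] at h
  obtain ⟨-, h2, h3⟩ := h
  have h4 : (num e' = num e ∧ num (-e') = num (-e)) ∨ (num e' = num (-e) ∧ num (-e') = num e) := by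
    rcases le_total (num e) (num (-e)) with h5 | h5 <;>
    rcases le_total (num e') (num (-e')) with h6 | h6 <;>
    simp only [min_eq_left, min_eq_right, max_eq_left, max_eq_right, h5, h6] at h2 h3
    · exact Or.inl ⟨h2, h3⟩
    · exact Or.inr ⟨h3, h2⟩
    · exact Or.inr ⟨h2, h3⟩
    · exact Or.inl ⟨h3, h2⟩
  rcases h4 with ⟨h5, h6⟩ | ⟨h5, h6⟩
  · exact Or.inl (num_inj h5 h6)
  · refine Or.inr (num_inj h5 ?_)
    rw [neg_neg]; exact h6

theorem tri_spec (he : e ≠ 0) :
    IsABCTriple (tri e).1 (tri e).2.1 (tri e).2.2 ∧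
      Real.log (tri e).2.2 = (∑ p : {p // p ∈ Nat.primesLE m}, |(e p : ℝ)| * Real.log (p : ℕ) +
        |∑ p : {p // p ∈ Nat.primesLE m}, (e p : ℝ) * Real.log (p : ℕ)|) / 2 ∧
      (((tri e).1 : ℕ) : ℝ) ≤
        (tri e).2.2 * |∑ p : {p // p ∈ Nat.primesLE m}, (e p : ℝ) * Real.log (p : ℕ)| ∧
      rad ((tri e).1 * (tri e).2.1 * (tri e).2.2) ≤ (tri e).1 * ∏ p ∈ Nat.primesLE m, p := by
  set A := num e with hA
  set B := num (-e) with hB
  have hA0 : 0 < A := num_pos e
  have hB0 : 0 < B := num_pos (-e)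
  have hAB : A ≠ B := num_ne e he
  have hcop : Nat.Coprime A B := num_coprime e
  have hlA := log_num e
  have hlB := log_num (-e)
  rw [← hA] at hlA
  rw [← hB] at hlB
  have hsub : ∑ p : {p // p ∈ Nat.primesLE m}, (e p : ℝ) * Real.log (p : ℕ) = Real.log A - Real.log B := by
    rw [hlA, hlB, ← Finset.sum_sub_distrib]
    refine Finset.sum_congr rfl fun p _ => ?_
    rw [← sub_mul]
    congr 1
    have : (e p) = ((e p).toNat : ℤ) - ((-e) p).toNat := by
      simp only [Pi.neg_apply]; omega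
    exact_mod_cast congrArg (fun z : ℤ => (z : ℝ)) this
  have hadd : ∑ p : {p // p ∈ Nat.primesLE m}, |(e p : ℝ)| * Real.log (p : ℕ) = Real.log A + Real.log B := by
    rw [hlA, hlB, ← Finset.sum_add_distrib]
    refine Finset.sum_congr rfl fun p _ => ?_
    rw [← add_mul]
    congr 1
    have : |e p| = ((e p).toNat : ℤ) + ((-e) p).toNat := by
      simp only [Pi.neg_apply]
      rcases abs_cases (e p) with h | h <;> omega
    exact_mod_cast congrArg (fun z : ℤ => (z : ℝ)) this
  rw [hsub, hadd]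
  have main : ∀ x y : ℕ, 0 < x → 0 < y → x < y → Nat.Coprime x y →
      x.primeFactors ⊆ Nat.primesLE m → y.primeFactors ⊆ Nat.primesLE m →
      IsABCTriple (y - x) x y ∧
      Real.log y = (Real.log y + Real.log x + |Real.log y - Real.log x|) / 2 ∧
      (((y - x : ℕ) : ℕ) : ℝ) ≤ y * |Real.log y - Real.log x| ∧
      rad ((y - x) * x * y) ≤ (y - x) * ∏ p ∈ Nat.primesLE m, p := by
    intro x y hx hy hxy hc hxp hyp
    have hx' : (0 : ℝ) < x := by exact_mod_cast hx
    have hy' : (0 : ℝ) < y := by exact_mod_cast hy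
    have hl : Real.log x < Real.log y := Real.log_lt_log hx' (by exact_mod_cast hxy)
    have h1 : Nat.Coprime (y - x) x := (Nat.coprime_sub_self_left hxy.le).mpr hc.symm
    have h2 : Nat.Coprime (y - x) y := by
      have := (Nat.coprime_self_sub_left hxy.le (m := x) (n := y)).mpr hc
      exact this
    refine ⟨⟨by omega, hx, hy, by omega, h1, h2, hc⟩, ?_, ?_, ?_⟩
    · rw [abs_of_pos (by linarith)]; ring
    · rw [abs_of_pos (by linarith)]
      rw [Nat.cast_sub hxy.le]
      have h5 := Real.add_one_le_exp (Real.log x - Real.log y)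
      rw [Real.exp_sub, Real.exp_log hx', Real.exp_log hy'] at h5
      have h6 : (y : ℝ) * (x / y) = x := by field_simp
      nlinarith
    · exact rad_bound (a := y - x) (by omega) hx hy hxp hyp
  unfold tri big small
  rw [← hA, ← hB]
  rcases lt_or_gt_of_ne hAB with h | h
  · have h1 := main A B hA0 hB0 h hcop (num_primeFactors e) (num_primeFactors (-e))
    rw [max_eq_right h.le, min_eq_left h.le]
    obtain ⟨h1, h2, h3, h4⟩ := h1
    refine ⟨h1, ?_, ?_, h4⟩
    · simp only
      rw [abs_sub_comm, add_comm (Real.log A)]; exact h2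
    · simp only
      rw [abs_sub_comm]; exact h3
  · have h1 := main B A hB0 hA0 h hcop.symm (num_primeFactors (-e)) (num_primeFactors e)
    rw [max_eq_left h.le, min_eq_right h.le]
    exact h1

/-- A short vector in the kernel of `W` gives a good triple. -/
theorem tri_good {m N : ℕ} {lam : ℝ} (hN : 0 < N) (hlam : 0 < lam)
    (hsmall : lam * (lam + 1) / (N * Real.log 2) < 1 / 2)
    (e : {p // p ∈ Nat.primesLE m} → ℤ) (he : e ≠ 0)
    (hdvd : (N : ℤ) ∣ ∑ i : {p // p ∈ Nat.primesLE m},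
      ⌊(N : ℝ) / (lam + 1) * Real.log (i : ℕ)⌋ * e i)
    (hsum : ∑ i : {p // p ∈ Nat.primesLE m}, |(e i : ℝ)| * Real.log (i : ℕ) ≤ lam) :
    IsABCTriple (tri e).1 (tri e).2.1 (tri e).2.2 ∧ (tri e).1 < (tri e).2.1 ∧
      Real.log (tri e).2.2 ≤ (lam + lam * (lam + 1) / (N * Real.log 2)) / 2 ∧
      Real.log N + Real.log (Real.log 2) - ∑ p ∈ Nat.primesLE m, Real.log p
        - Real.log (lam * (lam + 1)) ≤
        Real.log (tri e).2.2 - Real.log (rad ((tri e).1 * (tri e).2.1 * (tri e).2.2)) := by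
  have hl2 : (0 : ℝ) < Real.log 2 := Real.log_pos one_lt_two
  have hN' : (0 : ℝ) < N := by exact_mod_cast hN
  set M : ℝ := N / (lam + 1) with hM
  have hM0 : 0 < M := by positivity
  have hlogp : ∀ p : {p // p ∈ Nat.primesLE m}, Real.log 2 ≤ Real.log (p : ℕ) := fun p =>
    Real.log_le_log two_pos (by exact_mod_cast Nat.two_le_of_mem_primesLE p.2)
  -- the integer combination vanishes
  have hW : ∀ p : {p // p ∈ Nat.primesLE m},
      |((⌊M * Real.log (p : ℕ)⌋ : ℤ) : ℝ)| ≤ M * Real.log (p : ℕ) := by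
    intro p
    have h0 : 0 ≤ M * Real.log (p : ℕ) := by
      have := hlogp p
      have h1 : 0 ≤ Real.log (p : ℕ) := by linarith
      positivity
    rw [abs_of_nonneg (by exact_mod_cast Int.floor_nonneg.mpr h0)]
    exact Int.floor_le _
  have habs : |((∑ i : {p // p ∈ Nat.primesLE m}, ⌊M * Real.log (i : ℕ)⌋ * e i : ℤ) : ℝ)| < N := by
    push_cast
    calc |∑ i : {p // p ∈ Nat.primesLE m}, (⌊M * Real.log (i : ℕ)⌋ : ℝ) * (e i : ℝ)|
        ≤ ∑ i : {p // p ∈ Nat.primesLE m}, |(⌊M * Real.log (i : ℕ)⌋ : ℝ) * (e i : ℝ)| :=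
          Finset.abs_sum_le_sum_abs _ _
      _ ≤ ∑ i : {p // p ∈ Nat.primesLE m}, M * (|(e i : ℝ)| * Real.log (i : ℕ)) := by
          refine Finset.sum_le_sum fun i _ => ?_
          rw [abs_mul]
          have := mul_le_mul_of_nonneg_right (hW i) (abs_nonneg (e i : ℝ))
          linarith
      _ = M * ∑ i : {p // p ∈ Nat.primesLE m}, |(e i : ℝ)| * Real.log (i : ℕ) := by
          rw [Finset.mul_sum]
      _ ≤ M * lam := mul_le_mul_of_nonneg_left hsum hM0.le
      _ < M * (lam + 1) := by nlinarith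
      _ = N := by rw [hM]; field_simp
  have hzero : (∑ i : {p // p ∈ Nat.primesLE m}, ⌊M * Real.log (i : ℕ)⌋ * e i : ℤ) = 0 := by
    refine Int.eq_zero_of_abs_lt_dvd hdvd ?_
    exact_mod_cast habs
  set l : ℝ := ∑ p : {p // p ∈ Nat.primesLE m}, (e p : ℝ) * Real.log (p : ℕ) with hl
  have hMl : M * |l| ≤ lam / Real.log 2 := by
    have h1 : M * l = ∑ p : {p // p ∈ Nat.primesLE m},
        (M * Real.log (p : ℕ) - (⌊M * Real.log (p : ℕ)⌋ : ℤ)) * (e p : ℝ) := by
      have h2 : ∑ p : {p // p ∈ Nat.primesLE m}, ((⌊M * Real.log (p : ℕ)⌋ : ℤ) : ℝ) * (e p : ℝ) = 0 := by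
        have := congrArg (fun z : ℤ => (z : ℝ)) hzero
        push_cast at this
        exact this
      rw [hl, Finset.mul_sum]
      simp only [sub_mul]
      rw [Finset.sum_sub_distrib, h2, sub_zero]
      exact Finset.sum_congr rfl fun _ _ => by ring
    rw [← abs_of_pos hM0, ← abs_mul, h1]
    calc |∑ p : {p // p ∈ Nat.primesLE m},
        (M * Real.log (p : ℕ) - (⌊M * Real.log (p : ℕ)⌋ : ℤ)) * (e p : ℝ)|
        ≤ ∑ p : {p // p ∈ Nat.primesLE m},
          |(M * Real.log (p : ℕ) - (⌊M * Real.log (p : ℕ)⌋ : ℤ)) * (e p : ℝ)| :=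
          Finset.abs_sum_le_sum_abs _ _
      _ ≤ ∑ p : {p // p ∈ Nat.primesLE m}, (|(e p : ℝ)| * Real.log (p : ℕ)) / Real.log 2 := by
          refine Finset.sum_le_sum fun p _ => ?_
          rw [abs_mul]
          have h3 : |M * Real.log (p : ℕ) - (⌊M * Real.log (p : ℕ)⌋ : ℤ)| ≤ 1 := by
            rw [abs_of_nonneg (by linarith [Int.floor_le (M * Real.log (p : ℕ))])]
            linarith [Int.lt_floor_add_one (M * Real.log (p : ℕ))]
          have h4 : |(e p : ℝ)| ≤ |(e p : ℝ)| * Real.log (p : ℕ) / Real.log 2 := by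
            rw [le_div_iff₀ hl2]
            exact mul_le_mul_of_nonneg_left (hlogp p) (abs_nonneg _)
          have := mul_le_mul_of_nonneg_right h3 (abs_nonneg (e p : ℝ))
          linarith
      _ = (∑ p : {p // p ∈ Nat.primesLE m}, |(e p : ℝ)| * Real.log (p : ℕ)) / Real.log 2 := by
          rw [Finset.sum_div]
      _ ≤ lam / Real.log 2 := by gcongr
  have hl1 : |l| ≤ lam * (lam + 1) / (N * Real.log 2) := by
    rw [hM] at hMl
    rw [le_div_iff₀ (by positivity)] at hMl ⊢
    have h5 : N / (lam + 1) * |l| * Real.log 2 * (lam + 1) ≤ lam * (lam + 1) :=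
      mul_le_mul_of_nonneg_right hMl (by positivity)
    have h6 : N / (lam + 1) * |l| * Real.log 2 * (lam + 1) = |l| * (N * Real.log 2) := by
      field_simp
    linarith
  obtain ⟨habc, hc, ha, hr⟩ := tri_spec e he
  rw [← hl] at hc ha
  set a := (tri e).1 with haa
  set b := (tri e).2.1 with hbb
  set c := (tri e).2.2 with hcc
  obtain ⟨ha0, hb0, hc0, hsumabc, -⟩ := id habc
  have hc0' : (0 : ℝ) < c := by exact_mod_cast hc0
  have ha0' : (0 : ℝ) < a := by exact_mod_cast ha0
  refine ⟨habc, ?_, ?_, ?_⟩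
  · have h1 : (a : ℝ) < c * (1 / 2) := by
      refine lt_of_le_of_lt ha ?_
      exact mul_lt_mul_of_pos_left (lt_of_le_of_lt hl1 hsmall) hc0'
    have h2 : (a : ℝ) + b = c := by exact_mod_cast hsumabc
    have h3 : (a : ℝ) < b := by linarith
    exact_mod_cast h3
  · rw [hc]; linarith
  · have hrad : (0 : ℝ) < rad (a * b * c) := by
      have : 0 < rad (a * b * c) := by
        unfold rad
        exact Finset.prod_pos fun p hp => (Nat.prime_of_mem_primeFactors hp).pos
      exact_mod_cast this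
    have hP : (0 : ℝ) < ∏ p ∈ Nat.primesLE m, (p : ℝ) :=
      Finset.prod_pos fun p hp => by exact_mod_cast (Nat.prime_of_mem_primesLE hp).pos
    have hlpos : 0 < |l| := by
      rcases (abs_nonneg l).eq_or_lt with h | h
      · rw [← h] at ha
        linarith
      · exact h
    have hr' : (rad (a * b * c) : ℝ) ≤ c * |l| * ∏ p ∈ Nat.primesLE m, (p : ℝ) := by
      have h5 : ((rad (a * b * c) : ℕ) : ℝ) ≤ ((a * ∏ p ∈ Nat.primesLE m, p : ℕ) : ℝ) :=
        Nat.cast_le.mpr hr
      rw [Nat.cast_mul, Nat.cast_prod] at h5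
      exact h5.trans (mul_le_mul_of_nonneg_right ha hP.le)
    have h7 := Real.log_le_log hrad hr'
    rw [Real.log_mul (by positivity) hP.ne', Real.log_mul hc0'.ne' hlpos.ne',
      Real.log_prod (fun p hp => by
        have : (0 : ℝ) < p := by exact_mod_cast (Nat.prime_of_mem_primesLE hp).pos
        exact this.ne')] at h7
    have h8 := Real.log_le_log hlpos hl1
    rw [Real.log_div (by positivity) (by positivity), Real.log_mul hN'.ne' hl2.ne'] at h8
    linarith

end Pool.Agent.W16.GT
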