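import Pool.Agent.H390R2.Asym
import Pool.Agent.W16.GT.Tri
import Pool.Agent.W16.GT.Count

open Finset Filter Topology

namespace Pool.Agent.W16.GT

open Pool.Agent.H390R2

lemma II_nonneg {m : ℕ} : 0 ≤ II m := by
  unfold II
  refine Finset.sum_nonneg fun p hp => ?_
  have h1 : (0 : ℝ) < p := by exact_mod_cast (Nat.prime_of_mem_primesLE hp).pos
  apply Real.log_nonneg
  rw [le_div_iff₀ h1, one_mul]
  exact_mod_cast Nat.le_of_mem_primesLE hp

/-- For every large `m` the primes up to `m` give exponentially many good triples. -/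
theorem cut_triples {ε g h : ℝ} (hε : 0 < ε) (hε1 : ε ≤ 1 / 4) (hg : 0 < g) (hh : 0 < h)
    (hgh : g + h = 2) :
    ∀ᶠ m : ℕ in atTop, ∃ T : Finset (ℕ × ℕ × ℕ),
      Real.exp (h * Nat.primeCounting m) ≤ 2 * T.card ∧
      ∀ t ∈ T, IsABCTriple t.1 t.2.1 t.2.2 ∧ t.1 < t.2.1 ∧
        Real.log t.2.2 ≤ (1 + 2 * ε) * (18 * Real.exp (3 * ε) * Real.exp (-(44 / 15)) *
          (Nat.primeCounting m * m * Real.log m *
            Real.exp (-(II m / Nat.primeCounting m)))) ∧
        g * Nat.primeCounting m - 9 * Real.log m - 1 / 2 ≤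
          Real.log t.2.2 - Real.log (rad (t.1 * t.2.1 * t.2.2)) := by
  obtain ⟨n0, x0, hx0, hlat⟩ := lattice hε (by linarith)
  obtain ⟨D, hD0, hD⟩ := ev_II
  obtain ⟨b9, hb9⟩ := exists_nat_ge (1 / (18 * ε * Real.exp (-(44 / 15) - D)))
  filter_upwards [eventually_ge_atTop 45, eventually_ge_atTop b9, ev_log 1, ev_pi, hD,
      ev_pow 1 hx0 (Real.exp D), ev_pow 1 (a := 1) one_pos (2 * n0), ev_pow 1 hε 6,
      ev_pow 2 hg 24, ev_pow 2 hh 24] with m h1 h2 h3 h5 h6 h7 h8 h9 h10 h11
  clear hD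
  have hm45 : (45 : ℝ) ≤ m := by exact_mod_cast h1
  have hm0 : (0 : ℝ) < m := by linarith
  set L : ℝ := Real.log m with hL
  have hL0 : 0 < L := by linarith
  have hLm : L ≤ m := (Real.log_le_sub_one_of_pos hm0).trans (by linarith)
  set n : ℝ := (Nat.primeCounting m : ℝ) with hn
  have hn0 : 0 < n := lt_of_lt_of_le (by positivity) h5
  have hnm : n ≤ m := by
    rw [hn, ← Nat.primesLE_card_eq_primeCounting]
    have : (Nat.primesLE m).card ≤ m := by
      have h := Finset.card_le_card (s := Nat.primesLE m) (t := Finset.Icc 1 m) (fun p hp => by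
        rw [Finset.mem_Icc]
        exact ⟨(Nat.prime_of_mem_primesLE hp).one_le, Nat.le_of_mem_primesLE hp⟩)
      simpa using h
    exact_mod_cast this
  rw [pow_one] at h7 h8 h9
  have hnL : (m : ℝ) / 2 ≤ n * L := by
    rw [div_le_iff₀ (by positivity)] at h5
    linarith
  have hnB : (n0 : ℝ) ≤ n := by
    refine le_trans ?_ h5
    rw [le_div_iff₀ (by positivity)]
    linarith
  have hεn : 3 ≤ ε * n := by
    have : 3 ≤ ε * (m / (2 * L)) := by
      rw [mul_div_assoc', le_div_iff₀ (by positivity)]; linarith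
    exact this.trans (by gcongr)
  have hgn : 12 * L ≤ g * n := by
    have : 12 * L ≤ g * (m / (2 * L)) := by
      rw [mul_div_assoc', le_div_iff₀ (by positivity)]
      calc 12 * L * (2 * L) = 24 * L ^ 2 := by ring
        _ ≤ g * m := h10
    exact this.trans (by gcongr)
  have hhn : 12 * L ≤ h * n := by
    have : 12 * L ≤ h * (m / (2 * L)) := by
      rw [mul_div_assoc', le_div_iff₀ (by positivity)]
      calc 12 * L * (2 * L) = 24 * L ^ 2 := by ring
        _ ≤ h * m := h11
    exact this.trans (by gcongr)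
  have hghn : g * n + h * n = 2 * n := by rw [← hgh]; ring
  set J : ℝ := II m / n with hJ
  have hnJ : n * J = II m := by rw [hJ]; field_simp
  have hJD : J ≤ D := by
    rw [hJ, div_le_iff₀ hn0]; exact h6
  have hJ0 : 0 ≤ J := div_nonneg II_nonneg hn0.le
  set θ : ℝ := ∑ p ∈ Nat.primesLE m, Real.log p with hθ
  have hθJ : θ = n * L - n * J := by
    rw [hnJ, II_eq (by omega)]; ring
  have hθ0 : 0 ≤ θ := Finset.sum_nonneg fun p hp =>
    Real.log_natCast_nonneg p
  -- the moduli
  set N : ℕ := ⌈Real.exp (θ + g * n)⌉₊ with hN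
  have hNle : Real.exp (θ + g * n) ≤ N := Nat.le_ceil _
  have hNlt : (N : ℝ) < Real.exp (θ + g * n) + 1 := Nat.ceil_lt_add_one (Real.exp_pos _).le
  have hN0' : (0 : ℝ) < N := lt_of_lt_of_le (Real.exp_pos _) hNle
  have hN0 : 0 < N := by exact_mod_cast hN0'
  set M0 : ℕ := ⌈Real.exp (h * n)⌉₊ with hM0
  have hM0le : Real.exp (h * n) ≤ M0 := Nat.le_ceil _
  have hM0lt : (M0 : ℝ) < Real.exp (h * n) + 1 := Nat.ceil_lt_add_one (Real.exp_pos _).le
  have hM00 : M0 ≠ 0 := by
    have : (0 : ℝ) < M0 := lt_of_lt_of_le (Real.exp_pos _) hM0le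
    intro h; rw [h] at this; simp at this
  obtain ⟨M, hMp, hM1, hM2⟩ := Nat.exists_prime_lt_and_le_two_mul M0 hM00
  have hM1' : (M0 : ℝ) ≤ M := by exact_mod_cast hM1.le
  have hM2' : (M : ℝ) ≤ 2 * M0 := by exact_mod_cast hM2
  have hM0' : (0 : ℝ) < M := by exact_mod_cast hMp.pos
  have hlogN1 : θ + g * n ≤ Real.log N := by
    rw [Real.le_log_iff_exp_le hN0']; exact hNle
  have hlogNM : Real.log (N * M : ℕ) ≤ θ + 2 * n + 3 := by
    rw [Real.log_le_iff_le_exp (by push_cast; positivity)]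
    push_cast
    have e1 : Real.exp (θ + 2 * n + 3) = Real.exp (θ + g * n) * Real.exp (h * n) * Real.exp 3 := by
      rw [← Real.exp_add, ← Real.exp_add]
      congr 1
      linarith
    rw [e1]
    have h11 : 1 ≤ Real.exp (θ + g * n) := Real.one_le_exp (by positivity)
    have h12 : 1 ≤ Real.exp (h * n) := Real.one_le_exp (by positivity)
    have h13 : (8 : ℝ) ≤ Real.exp 3 := by
      have h14 : (2 : ℝ) ≤ Real.exp 1 := by linarith [Real.add_one_le_exp (1 : ℝ)]
      have h15 : Real.exp 3 = Real.exp 1 ^ 3 := by rw [← Real.exp_nat_mul]; norm_num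
      rw [h15]
      calc (8 : ℝ) = 2 ^ 3 := by norm_num
        _ ≤ _ := pow_le_pow_left₀ (by norm_num) h14 3
    calc (N : ℝ) * M ≤ (2 * Real.exp (θ + g * n)) * (4 * Real.exp (h * n)) := by
          have a1 : (N : ℝ) ≤ 2 * Real.exp (θ + g * n) := by linarith
          have a2 : (M : ℝ) ≤ 4 * Real.exp (h * n) := by linarith
          gcongr
      _ = Real.exp (θ + g * n) * Real.exp (h * n) * 8 := by ring
      _ ≤ _ := by gcongr
  have hlogNM1 : θ + 2 * n ≤ Real.log (N * M : ℕ) := by
    rw [Real.le_log_iff_exp_le (by push_cast; positivity)]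
    push_cast
    have e1 : Real.exp (θ + 2 * n) = Real.exp (θ + g * n) * Real.exp (h * n) := by
      rw [← Real.exp_add]
      congr 1
      linarith
    rw [e1]
    have a2 : Real.exp (h * n) ≤ M := hM0le.trans hM1'
    gcongr
  have hNM0 : 0 < N * M := Nat.mul_pos hN0 hMp.pos
  -- the double logarithms
  have hlogp : ∀ p : {p // p ∈ Nat.primesLE m}, Real.log 2 ≤ Real.log (p : ℕ) := fun p =>
    Real.log_le_log two_pos (by exact_mod_cast Nat.two_le_of_mem_primesLE p.2)
  have hlogp' : ∀ p : {p // p ∈ Nat.primesLE m}, Real.log (p : ℕ) ≤ L := fun p =>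
    Real.log_le_log (by exact_mod_cast (Nat.prime_of_mem_primesLE p.2).pos)
      (by exact_mod_cast Nat.le_of_mem_primesLE p.2)
  have hl2 : (0 : ℝ) < Real.log 2 := Real.log_pos one_lt_two
  have hlogp0 : ∀ p : {p // p ∈ Nat.primesLE m}, 0 < Real.log (p : ℕ) := fun p =>
    hl2.trans_le (hlogp p)
  have hcard : (Fintype.card {p // p ∈ Nat.primesLE m} : ℝ) = n := by
    rw [hn, ← Nat.primesLE_card_eq_primeCounting, Fintype.card_coe]
  set LL : ℝ := ∑ p : {p // p ∈ Nat.primesLE m}, Real.log (Real.log (p : ℕ)) with hLL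
  have hLL1 : LL ≤ n * Real.log L := by
    rw [← hcard, ← Finset.card_univ, ← nsmul_eq_mul, ← Finset.sum_const]
    exact Finset.sum_le_sum fun p _ => Real.log_le_log (hlogp0 p) (hlogp' p)
  have hLL2 : -(n / 2) ≤ LL := by
    have : n * (-(1 / 2)) ≤ LL := by
      rw [← hcard, ← Finset.card_univ, ← nsmul_eq_mul, ← Finset.sum_const]
      refine Finset.sum_le_sum fun p _ => ?_
      exact loglog_two.trans (Real.log_le_log hl2 (hlogp p))
    linarith
  -- the scale
  set s : ℝ := (Real.log (N * M : ℕ) + LL) / n + (Real.log 40 - 74 / 15) + 2 * ε with hs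
  have hsn : s * n = Real.log (N * M : ℕ) + LL + n * (Real.log 40 - 74 / 15 + 2 * ε) := by
    rw [hs]; field_simp; ring
  have hs1 : s ≤ L - J + 2 + Real.log L + (Real.log 40 - 74 / 15) + 3 * ε := by
    refine le_of_mul_le_mul_right ?_ hn0
    rw [hsn]
    linarith
  have hs2 : L - D ≤ s := by
    refine le_of_mul_le_mul_right ?_ hn0
    rw [hsn]
    have := log_forty
    have h13 : n * J ≤ n * D := by gcongr
    have h14 : n * (3.6655 : ℝ) ≤ n * Real.log 40 := by gcongr
    have h15 : 0 < n * ε := by positivity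
    linarith
  set σ : ℝ := Real.exp (-s) with hσ
  have hσ0 : 0 < σ := Real.exp_pos _
  have hσw : ∀ p : {p // p ∈ Nat.primesLE m}, σ * Real.log (p : ℕ) ≤ x0 := by
    intro p
    have h16 : σ ≤ Real.exp D / m := by
      rw [hσ]
      have : Real.exp (-s) ≤ Real.exp (D - L) := Real.exp_le_exp.mpr (by linarith)
      rwa [Real.exp_sub, hL, Real.exp_log hm0] at this
    calc σ * Real.log (p : ℕ) ≤ Real.exp D / m * L := by
          gcongr
          exact hlogp' p
      _ = Real.exp D * L / m := by ring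
      _ ≤ x0 := by rw [div_le_iff₀ hm0]; exact h7
  have hcond : Real.log (N * M : ℕ) + ∑ p : {p // p ∈ Nat.primesLE m}, Real.log (σ * Real.log (p : ℕ)) +
      Fintype.card {p // p ∈ Nat.primesLE m} * (Real.log 40 - 74 / 15 + 2 * ε) ≤ 0 := by
    have h17 : ∑ p : {p // p ∈ Nat.primesLE m}, Real.log (σ * Real.log (p : ℕ)) = -(s * n) + LL := by
      have : ∀ p : {p // p ∈ Nat.primesLE m}, Real.log (σ * Real.log (p : ℕ)) =
          -s + Real.log (Real.log (p : ℕ)) := by
        intro p
        rw [Real.log_mul hσ0.ne' (hlogp0 p).ne', hσ, Real.log_exp]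
      simp only [this]
      rw [Finset.sum_add_distrib, Finset.sum_const, nsmul_eq_mul, Finset.card_univ, hcard]
      ring
    rw [h17, hcard, hsn]
    linarith
  set lam : ℝ := (1 + ε) * (9 / 10) * n / σ with hlam
  have hlam0 : 0 < lam := by positivity
  -- upper bound for `lam`
  set A : ℝ := 18 * Real.exp (3 * ε) * Real.exp (-(44 / 15)) * (n * m * L * Real.exp (-J)) with hA
  have hA0 : 0 < A := by positivity
  have hlamA : lam ≤ 2 * (1 + ε) * A := by
    have h18 : 1 / σ ≤ Real.exp (L - J + 2 + Real.log L + (Real.log 40 - 74 / 15) + 3 * ε) := by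
      rw [hσ, Real.exp_neg, one_div, inv_inv]
      exact Real.exp_le_exp.mpr hs1
    have h19 : Real.exp (L - J + 2 + Real.log L + (Real.log 40 - 74 / 15) + 3 * ε) =
        40 * (Real.exp (3 * ε) * Real.exp (-(44 / 15))) * (m * L * Real.exp (-J)) := by
      have : L - J + 2 + Real.log L + (Real.log 40 - 74 / 15) + 3 * ε =
          Real.log 40 + (3 * ε + -(44 / 15)) + (L + Real.log L + -J) := by ring
      rw [this, Real.exp_add, Real.exp_add, Real.exp_add, Real.exp_add, Real.exp_add,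
        Real.exp_log (by norm_num), hL, Real.exp_log hm0, Real.exp_log (by rw [← hL]; exact hL0)]
    rw [h19] at h18
    calc lam = (1 + ε) * (9 / 10) * n * (1 / σ) := by rw [hlam]; ring
      _ ≤ (1 + ε) * (9 / 10) * n *
          (40 * (Real.exp (3 * ε) * Real.exp (-(44 / 15))) * (m * L * Real.exp (-J))) := by gcongr
      _ = 2 * (1 + ε) * A := by rw [hA]; ring
  -- crude bound for `lam`
  have hlamm : lam ≤ (m : ℝ) ^ 4 := by
    have h20 : Real.exp (3 * ε) * Real.exp (-(44 / 15)) ≤ 1 := by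
      rw [← Real.exp_add]; exact Real.exp_le_one_iff.mpr (by linarith only [hε1])
    have h21 : Real.exp (-J) ≤ 1 := Real.exp_le_one_iff.mpr (by linarith only [hJ0])
    have h22 : A ≤ 18 * (n * m * L) := by
      calc A = 18 * (Real.exp (3 * ε) * Real.exp (-(44 / 15))) * (n * m * L * Real.exp (-J)) := by
            rw [hA]; ring
        _ ≤ 18 * 1 * (n * m * L * 1) := by gcongr
        _ = 18 * (n * m * L) := by ring
    calc lam ≤ 2 * (1 + ε) * A := hlamA
      _ ≤ 2 * (1 + 1 / 4) * (18 * (n * m * L)) := by gcongr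
      _ = 45 * (n * m * L) := by ring
      _ ≤ m * (m * m * m) := by gcongr
      _ = (m : ℝ) ^ 4 := by ring
  have hlam1 : lam + 1 ≤ (m : ℝ) ^ 5 := by
    have : (1 : ℝ) ≤ (m : ℝ) ^ 4 := one_le_pow₀ (by linarith only [hm45])
    calc lam + 1 ≤ (m : ℝ) ^ 4 + (m : ℝ) ^ 4 := by linarith only [hlamm, this]
      _ = 2 * (m : ℝ) ^ 4 := by ring
      _ ≤ m * (m : ℝ) ^ 4 := by gcongr; linarith only [hm45]
      _ = (m : ℝ) ^ 5 := by ring
  have hprod : lam * (lam + 1) ≤ (m : ℝ) ^ 9 := by
    calc lam * (lam + 1) ≤ (m : ℝ) ^ 4 * (m : ℝ) ^ 5 := by gcongr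
      _ = (m : ℝ) ^ 9 := by ring
  have hlogprod : Real.log (lam * (lam + 1)) ≤ 9 * L := by
    have := Real.log_le_log (by positivity) hprod
    rwa [Real.log_pow] at this
  have hl2' : (0.6931 : ℝ) ≤ Real.log 2 := by linarith only [Real.log_two_gt_d9]
  have hexp1 : (2.7 : ℝ) ≤ Real.exp 1 := by linarith only [Real.exp_one_gt_d9]
  -- the error term is small
  have hsmall : lam * (lam + 1) / (N * Real.log 2) < 1 / 2 := by
    rw [div_lt_iff₀ (by positivity)]
    have h31 : Real.exp (9 * L + 2) ≤ N := by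
      refine le_trans (Real.exp_le_exp.mpr ?_) hNle
      linarith only [hgn, h3, hθ0, hL0]
    have h32 : (m : ℝ) ^ 9 = Real.exp (9 * L) := by
      rw [show (9 : ℝ) * L = (9 : ℕ) * L by norm_num, Real.exp_nat_mul, hL, Real.exp_log hm0]
    have h33 : Real.exp (9 * L + 2) = Real.exp (9 * L) * (Real.exp 1 * Real.exp 1) := by
      rw [Real.exp_add, ← Real.exp_add 1 1]; norm_num
    rw [h33] at h31
    rw [h32] at hprod
    have h34 : 0 < Real.exp (9 * L) := Real.exp_pos _
    have h35 : (7 : ℝ) ≤ Real.exp 1 * Real.exp 1 :=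
      le_trans (by norm_num) (mul_le_mul hexp1 hexp1 (by norm_num) (Real.exp_pos _).le)
    have h36 : Real.exp (9 * L) * 7 ≤ N := by
      refine le_trans ?_ h31
      gcongr
    calc lam * (lam + 1) ≤ Real.exp (9 * L) := hprod
      _ < 1 / 2 * (Real.exp (9 * L) * 7 * 0.6931) := by linarith only [h34]
      _ ≤ 1 / 2 * (N * Real.log 2) := by gcongr
  set P : ({p // p ∈ Nat.primesLE m} → ℤ) → Prop := fun e =>
    ∑ i : {p // p ∈ Nat.primesLE m}, |(e i : ℝ)| * Real.log (i : ℕ) ≤ lam with hPdef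
  have hPM : ∀ e, P e → ∀ i, |e i| < M := by
    intro e he i
    have h41 : |(e i : ℝ)| * Real.log (i : ℕ) ≤ lam := by
      refine le_trans ?_ he
      exact Finset.single_le_sum (f := fun i : {p // p ∈ Nat.primesLE m} =>
        |(e i : ℝ)| * Real.log (i : ℕ))
        (fun j _ => mul_nonneg (abs_nonneg _) (hlogp0 j).le) (Finset.mem_univ i)
    have h42 : |(e i : ℝ)| * 0.6931 ≤ lam := by
      refine le_trans ?_ h41
      exact mul_le_mul_of_nonneg_left (hl2'.trans (hlogp i)) (abs_nonneg (e i : ℝ))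
    have h44 : (m : ℝ) ^ 4 = Real.exp (4 * L) := by
      rw [show (4 : ℝ) * L = (4 : ℕ) * L by norm_num, Real.exp_nat_mul, hL, Real.exp_log hm0]
    have h45 : Real.exp (4 * L + 1) ≤ M := by
      refine le_trans (Real.exp_le_exp.mpr ?_) (hM0le.trans hM1')
      linarith only [hhn, h3, hL0]
    rw [Real.exp_add] at h45
    have h46 : 0 < Real.exp (4 * L) := Real.exp_pos _
    have h48 : Real.exp (4 * L) * 2.7 ≤ Real.exp (4 * L) * Real.exp 1 :=
      mul_le_mul_of_nonneg_left hexp1 h46.le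
    rw [h44] at hlamm
    have h47 : |(e i : ℝ)| < M := by linarith only [h42, hlamm, h45, h46, h48]
    exact_mod_cast h47
  obtain ⟨V, hVcard, hV⟩ := many_vectors (N := N) (M := M) hN0 hMp
    (fun i : {p // p ∈ Nat.primesLE m} => ⌊(N : ℝ) / (lam + 1) * Real.log (i : ℕ)⌋) P hPM
    (by
      intro W
      obtain ⟨e, he, hdvd, hle⟩ := hlat {p // p ∈ Nat.primesLE m}
        (fun p => Real.log (p : ℕ)) (N * M) W σ
        (by
          have : (n0 : ℝ) ≤ (Fintype.card {p // p ∈ Nat.primesLE m} : ℝ) := by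
            rw [hcard]; exact hnB
          exact_mod_cast this) hNM0 hlogp0 hσ0 hσw hcond
      refine ⟨e, he, hdvd, ?_⟩
      rw [hcard] at hle
      exact hle)
  refine ⟨V.image tri, ?_, ?_⟩
  · have h51 : V.card ≤ 2 * (V.image tri).card := by
      refine Finset.card_le_mul_card_image (s := V) (f := tri) 2 ?_
      intro t ht
      obtain ⟨e0, _, he0⟩ := Finset.mem_image.mp ht
      have h52 : (V.filter fun e => tri e = t) ⊆ {e0, -e0} := by
        intro e he
        rw [Finset.mem_filter] at he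
        have h53 := tri_fiber (e := e0) (e' := e) (by rw [he.2, he0])
        simp only [Finset.mem_insert, Finset.mem_singleton]
        exact h53
      exact (Finset.card_le_card h52).trans Finset.card_le_two
    have h54 : (V.card : ℝ) ≤ 2 * (V.image tri).card := by exact_mod_cast h51
    have h55 : (M : ℝ) ≤ V.card := by exact_mod_cast hVcard
    linarith only [h54, h55, hM0le, hM1']
  · intro t ht
    obtain ⟨e, he, rfl⟩ := Finset.mem_image.mp ht
    obtain ⟨he0, hdvd, hsum⟩ := hV e he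
    obtain ⟨habc, hab, hcle, hcrad⟩ := tri_good hN0 hlam0 hsmall e he0 hdvd hsum
    refine ⟨habc, hab, ?_, ?_⟩
    · -- the upper bound for `log c`
      have hAlow : 9 * Real.exp (-(44 / 15) - D) * (m : ℝ) ^ 2 ≤ A := by
        have h23 : Real.exp (-D) ≤ Real.exp (-J) := Real.exp_le_exp.mpr (by linarith only [hJD])
        have h24 : 1 ≤ Real.exp (3 * ε) := Real.one_le_exp (by positivity)
        calc 9 * Real.exp (-(44 / 15) - D) * (m : ℝ) ^ 2
            = 18 * 1 * Real.exp (-(44 / 15)) * ((m / 2) * m * Real.exp (-D)) := by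
              rw [sub_eq_add_neg, Real.exp_add]; ring
          _ ≤ 18 * Real.exp (3 * ε) * Real.exp (-(44 / 15)) * ((n * L) * m * Real.exp (-J)) := by
              gcongr
          _ = A := by rw [hA]; ring
      have h25 : 1 / 2 ≤ ε * A := by
        have h26 : 1 / (18 * ε * Real.exp (-(44 / 15) - D)) ≤ m :=
          hb9.trans (by exact_mod_cast h2)
        rw [div_le_iff₀ (by positivity)] at h26
        have h27 : (m : ℝ) ≤ (m : ℝ) ^ 2 := le_self_pow₀ (by linarith only [hm45]) two_ne_zero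
        calc (1 / 2 : ℝ) ≤ (m * (18 * ε * Real.exp (-(44 / 15) - D))) / 2 := by linarith only [h26]
          _ = ε * (9 * Real.exp (-(44 / 15) - D) * m) := by ring
          _ ≤ ε * (9 * Real.exp (-(44 / 15) - D) * (m : ℝ) ^ 2) := by gcongr
          _ ≤ ε * A := by gcongr
      linarith only [h25, hcle, hsmall, hlamA]
    · rw [← hθ] at hcrad
      linarith only [loglog_two, hcrad, hlogprod, hlogN1]

end Pool.Agent.W16.GT
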